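import Pool.Agent.Y21.CUB.C
import Pool.Agent.Y471.CK.Dens

/-! The measures `P t` and their tails. -/

set_option autoImplicit false

namespace Pool.Agent.Helper8.Med

open Finset W93.CU Pool.Agent.Y21.CUB Pool.Agent.Y471.CK

/-- The measures of the problem, as functions on the integers: `P 1` is the point mass at `0`,
`P (2 n) = P n` and `P (2 n + 1) d = (1/2) P n (d - 1) + (1/2) P (n + 1) (d + 1)` for `n ≥ 1`
(the value at `t = 0` plays no role). -/
noncomputable def P (t : ℕ) (d : ℤ) : ℝ :=
  if t ≤ 1 then (if d = 0 then 1 else 0)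
  else if t % 2 = 0 then P (t / 2) d
  else 1 / 2 * P (t / 2) (d - 1) + 1 / 2 * P (t / 2 + 1) (d + 1)
termination_by t
decreasing_by all_goals omega

lemma P_one (d : ℤ) : P 1 d = if d = 0 then 1 else 0 := by
  rw [P, if_pos le_rfl]

lemma P_even (n : ℕ) (hn : 1 ≤ n) (d : ℤ) : P (2 * n) d = P n d := by
  rw [P, if_neg (by omega), if_pos (by omega), show 2 * n / 2 = n by omega]

lemma P_odd (n : ℕ) (hn : 1 ≤ n) (d : ℤ) :
    P (2 * n + 1) d = 1 / 2 * P n (d - 1) + 1 / 2 * P (n + 1) (d + 1) := by
  rw [P, if_neg (by omega), if_neg (by omega), show (2 * n + 1) / 2 = n by omega]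

/-- an induction principle -/
lemma P_ind (Q : (ℤ → ℝ) → Prop) (h1 : Q (fun d => if d = 0 then 1 else 0))
    (h2 : ∀ f g, Q f → Q g → Q (fun d => 1 / 2 * f (d - 1) + 1 / 2 * g (d + 1))) :
    ∀ t : ℕ, 1 ≤ t → Q (P t) := by
  intro t
  induction t using Nat.strong_induction_on with
  | _ t ih =>
    intro ht
    rcases eq_or_lt_of_le ht with h | h
    · subst h
      have : P 1 = fun d => if d = 0 then 1 else 0 := funext P_one
      rw [this]; exact h1
    · rcases Nat.even_or_odd' t with ⟨c, hc | hc⟩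
      · have e : P t = P c := by
          funext d; rw [hc, P_even c (by omega)]
        rw [e]; exact ih c (by omega) (by omega)
      · have e : P t = fun d => 1 / 2 * P c (d - 1) + 1 / 2 * P (c + 1) (d + 1) := by
          funext d; rw [hc, P_odd c (by omega)]
        rw [e]
        exact h2 _ _ (ih c (by omega) (by omega)) (ih (c + 1) (by omega) (by omega))

lemma P_nonneg (t : ℕ) (ht : 1 ≤ t) (d : ℤ) : 0 ≤ P t d := by
  have := P_ind (fun f => ∀ d, 0 ≤ f d) (fun d => by dsimp only; split_ifs <;> norm_num)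
    (fun f g hf hg d => by have := hf (d - 1); have := hg (d + 1); positivity) t ht
  exact this d

lemma P_hasSum (t : ℕ) (ht : 1 ≤ t) : HasSum (P t) 1 := by
  refine P_ind (fun f => HasSum f 1) (hasSum_ite_eq 0 1) (fun f g hf hg => ?_) t ht
  have h1 : HasSum (fun d : ℤ => f (d - 1)) 1 := (Equiv.subRight (1:ℤ)).hasSum_iff.mpr hf
  have h2 : HasSum (fun d : ℤ => g (d + 1)) 1 := (Equiv.addRight (1:ℤ)).hasSum_iff.mpr hg
  have := (h1.mul_left (1/2)).add (h2.mul_left (1/2))
  norm_num at this
  simpa using this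

lemma base_up (k : ℤ) : HasSum (fun d : ℕ => if k + d = 0 then (1:ℝ) else 0) (one0 k) := by
  unfold one0
  by_cases h : k ≤ 0
  · rw [if_pos h]
    obtain ⟨m, hm⟩ := Int.eq_ofNat_of_zero_le (show 0 ≤ -k by omega)
    have := hasSum_ite_eq (m : ℕ) (1 : ℝ)
    refine this.congr_fun ?_ |> fun h => h
    intro d
    congr 1
    apply propext
    omega
  · rw [if_neg h]
    have e : (fun d : ℕ => if k + d = 0 then (1:ℝ) else 0) = fun _ => 0 := by
      funext d; rw [if_neg (by omega)]
    rw [e]; exact hasSum_zero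

lemma base_down (k : ℤ) :
    HasSum (fun d : ℕ => if k - d = 0 then (1:ℝ) else 0) (1 - one0 (k + 1)) := by
  unfold one0
  by_cases h : 0 ≤ k
  · rw [if_neg (by omega), sub_zero]
    obtain ⟨m, hm⟩ := Int.eq_ofNat_of_zero_le h
    have := hasSum_ite_eq (m : ℕ) (1 : ℝ)
    refine this.congr_fun ?_ |> fun h => h
    intro d
    congr 1
    apply propext
    omega
  · rw [if_pos (by omega), sub_self]
    have e : (fun d : ℕ => if k - d = 0 then (1:ℝ) else 0) = fun _ => 0 := by
      funext d; rw [if_neg (by omega)]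
    rw [e]; exact hasSum_zero

/-- the number `(1 u)_2`, where `u` lists the digits below the leading one, lowest digit first -/
def num (u : List Bool) : ℕ := val (u ++ [true])

lemma num_pos (u : List Bool) : 1 ≤ num u := by
  induction u with
  | nil => exact le_rfl
  | cons b u ih =>
    cases b with
    | true => show 1 ≤ 2 * num u + 1; omega
    | false => show 1 ≤ 2 * num u; omega

/-- the upper tails -/
lemma upper (u : List Bool) :
    (∀ k : ℤ, HasSum (fun d : ℕ => P (num u) (k + d)) ((tlp (1/2) u).1 k)) ∧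
    ∀ k : ℤ, HasSum (fun d : ℕ => P (num u + 1) (k + d)) ((tlp (1/2) u).2 k) := by
  induction u with
  | nil =>
    have e1 : num [] = 1 := rfl
    refine ⟨fun k => ?_, fun k => ?_⟩
    · rw [e1]
      simp only [P_one]
      exact base_up k
    · rw [e1, show 1 + 1 = 2 * 1 from rfl]
      simp only [P_even 1 le_rfl, P_one]
      exact base_up k
  | cons b u ih =>
    obtain ⟨ih1, ih2⟩ := ih
    have hp := num_pos u
    have mix : ∀ k : ℤ, HasSum (fun d : ℕ => P (2 * num u + 1) (k + d))
        (1/2 * (tlp (1/2) u).1 (k-1) + (1 - 1/2) * (tlp (1/2) u).2 (k+1)) := by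
      intro k
      have h := ((ih1 (k-1)).mul_left (1/2)).add ((ih2 (k+1)).mul_left (1 - 1/2))
      refine h.congr_fun fun d => ?_
      rw [P_odd _ hp, show k - 1 + (d:ℤ) = k + d - 1 by ring,
        show k + 1 + (d:ℤ) = k + d + 1 by ring]
      norm_num
    cases b with
    | true =>
      have e1 : num (true :: u) = 2 * num u + 1 := rfl
      refine ⟨fun k => ?_, fun k => ?_⟩
      · rw [e1]; exact mix k
      · rw [e1, show 2 * num u + 1 + 1 = 2 * (num u + 1) by ring]
        simp only [P_even (num u + 1) (by omega)]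
        exact ih2 k
    | false =>
      have e1 : num (false :: u) = 2 * num u := rfl
      refine ⟨fun k => ?_, fun k => ?_⟩
      · rw [e1]
        simp only [P_even (num u) hp]
        exact ih1 k
      · rw [e1]; exact mix k

/-- the lower tails -/
lemma lower (u : List Bool) :
    (∀ k : ℤ, HasSum (fun d : ℕ => P (num u) (k - d)) (1 - (tlp (1/2) u).1 (k + 1))) ∧
    ∀ k : ℤ, HasSum (fun d : ℕ => P (num u + 1) (k - d)) (1 - (tlp (1/2) u).2 (k + 1)) := by
  induction u with
  | nil =>
    have e1 : num [] = 1 := rfl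
    refine ⟨fun k => ?_, fun k => ?_⟩
    · rw [e1]
      simp only [P_one]
      exact base_down k
    · rw [e1, show 1 + 1 = 2 * 1 from rfl]
      simp only [P_even 1 le_rfl, P_one]
      exact base_down k
  | cons b u ih =>
    obtain ⟨ih1, ih2⟩ := ih
    have hp := num_pos u
    have mix : ∀ k : ℤ, HasSum (fun d : ℕ => P (2 * num u + 1) (k - d))
        (1 - (1/2 * (tlp (1/2) u).1 (k+1-1) + (1 - 1/2) * (tlp (1/2) u).2 (k+1+1))) := by
      intro k
      have h := ((ih1 (k-1)).mul_left (1/2)).add ((ih2 (k+1)).mul_left (1 - 1/2))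
      have e : 1/2 * (1 - (tlp (1/2) u).1 (k-1+1)) + (1 - 1/2) * (1 - (tlp (1/2) u).2 (k+1+1)) =
          (1 - (1/2 * (tlp (1/2) u).1 (k+1-1) + (1 - 1/2) * (tlp (1/2) u).2 (k+1+1))) := by
        rw [show k - 1 + 1 = k by ring, show k + 1 - 1 = k by ring]
        ring
      rw [e] at h
      refine h.congr_fun fun d => ?_
      rw [P_odd _ hp, show k - 1 - (d:ℤ) = k - d - 1 by ring,
        show k + 1 - (d:ℤ) = k - d + 1 by ring]
      norm_num
    cases b with
    | true =>
      have e1 : num (true :: u) = 2 * num u + 1 := rfl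
      refine ⟨fun k => ?_, fun k => ?_⟩
      · rw [e1]; exact mix k
      · rw [e1, show 2 * num u + 1 + 1 = 2 * (num u + 1) by ring]
        simp only [P_even (num u + 1) (by omega)]
        exact ih2 k
    | false =>
      have e1 : num (false :: u) = 2 * num u := rfl
      refine ⟨fun k => ?_, fun k => ?_⟩
      · rw [e1]
        simp only [P_even (num u) hp]
        exact ih1 k
      · rw [e1]; exact mix k

/-- `P_t(ℕ)` and `P_t(-ℕ)` for `t = (1 v 1)_2` -/
lemma odd_pos (v : List Bool) :
    HasSum (fun d : ℕ => P (num (true :: v.reverse)) d) (pos (1/2) v) ∧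
    HasSum (fun d : ℕ => P (num (true :: v.reverse)) (-d)) (pos (1/2) (v.map not)) := by
  have h0 : (1/2 : ℝ) ≠ 0 := by norm_num
  have h1 : (1 - 1/2 : ℝ) ≠ 0 := by norm_num
  constructor
  · have h := (upper (true :: v.reverse)).1 0
    have e : (tlp (1/2) (true :: v.reverse)).1 0 =
      1/2 * (tlp (1/2) v.reverse).1 (0 - 1) + (1 - 1/2) * (tlp (1/2) v.reverse).2 (0 + 1) := rfl
    rw [e, tail_pos _ h0 h1] at h
    refine h.congr_fun fun d => ?_
    rw [zero_add]
  · have h := (lower (true :: v.reverse)).1 0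
    have e : (tlp (1/2) (true :: v.reverse)).1 (0 + 1) =
      1/2 * (tlp (1/2) v.reverse).1 (1 - 1) + (1 - 1/2) * (tlp (1/2) v.reverse).2 (1 + 1) := rfl
    rw [e, tail_one _ h0 h1] at h
    have e2 : (1 - (1 - pos (1 - 1/2) (v.map not))) = pos (1/2) (v.map not) := by
      norm_num
    rw [e2] at h
    refine h.congr_fun fun d => ?_
    rw [zero_sub]

end Pool.Agent.Helper8.Med
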