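import Pool.Agent.Helper8.Med.A

/-! Long runs in terms of the positions of the digits. -/

set_option autoImplicit false

namespace Pool.Agent.Helper8.Med

open Finset W93.CU Pool.Agent.Y21.CUB Pool.Agent.Y471.CK

/-- positions of the zeros of `w`, and the position after the end -/
def M (w : List Bool) (i : ℕ) : Prop := (w ++ [false])[i]? = some false

lemma M_nil_zero : M [] 0 := rfl

lemma M_nil_succ (i : ℕ) : ¬ M [] (i + 1) := by
  unfold M; simp

lemma M_cons_zero (b : Bool) (w : List Bool) : M (b :: w) 0 ↔ b = false := by
  unfold M; simp

lemma M_cons_succ (b : Bool) (w : List Bool) (i : ℕ) : M (b :: w) (i + 1) ↔ M w i := by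
  unfold M; simp

lemma first_iff (w : List Bool) : ∀ c : ℕ, c ≤ (gp w).1 ↔ ∀ j, M w j → c ≤ j := by
  induction w with
  | nil =>
    intro c
    constructor
    · intro h j _
      have : (gp []).1 = 0 := rfl
      omega
    · intro h
      exact h 0 M_nil_zero
  | cons b w ih =>
    intro c
    cases b with
    | true =>
      have e : (gp (true :: w)).1 = (gp w).1 + 1 := rfl
      rw [e]
      constructor
      · intro h j hj
        rcases j with _ | j
        · rw [M_cons_zero] at hj; exact absurd hj (by decide)
        · rw [M_cons_succ] at hj
          have := (ih (c - 1)).mp (by omega) j hj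
          omega
      · intro h
        have := (ih (c - 1)).mpr (fun j hj => by
          have := h (j + 1) ((M_cons_succ _ _ _).mpr hj)
          omega)
        omega
    | false =>
      have e : (gp (false :: w)).1 = 0 := rfl
      rw [e]
      constructor
      · intro h j _; omega
      · intro h
        exact h 0 ((M_cons_zero _ _).mpr rfl)

lemma rest_iff (w : List Bool) (c : ℕ) :
    (∀ g ∈ (gp w).2, c ≤ g) ↔ ∀ i j, i < j → M w i → M w j → i + c < j := by
  induction w with
  | nil =>
    constructor
    · intro _ i j hij _ hj
      rcases j with _ | j
      · omega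
      · exact absurd hj (M_nil_succ j)
    · intro _ g hg
      exact absurd hg (List.not_mem_nil)
  | cons b w ih =>
    cases b with
    | true =>
      have e : (gp (true :: w)).2 = (gp w).2 := rfl
      rw [e, ih]
      constructor
      · intro h i j hij hi hj
        rcases i with _ | i
        · rw [M_cons_zero] at hi; exact absurd hi (by decide)
        · rcases j with _ | j
          · omega
          · rw [M_cons_succ] at hi hj
            have := h i j (by omega) hi hj
            omega
      · intro h i j hij hi hj
        have := h (i + 1) (j + 1) (by omega) ((M_cons_succ _ _ _).mpr hi)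
          ((M_cons_succ _ _ _).mpr hj)
        omega
    | false =>
      have e : (gp (false :: w)).2 = (gp w).1 :: (gp w).2 := rfl
      rw [e, List.forall_mem_cons, ih, first_iff]
      constructor
      · rintro ⟨h1, h⟩ i j hij hi hj
        rcases j with _ | j
        · omega
        · rw [M_cons_succ] at hj
          rcases i with _ | i
          · have := h1 j hj
            omega
          · rw [M_cons_succ] at hi
            have := h i j (by omega) hi hj
            omega
      · intro h
        refine ⟨fun j hj => ?_, fun i j hij hi hj => ?_⟩
        · have := h 0 (j + 1) (by omega) ((M_cons_zero _ _).mpr rfl) ((M_cons_succ _ _ _).mpr hj)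
          omega
        · have := h (i + 1) (j + 1) (by omega) ((M_cons_succ _ _ _).mpr hi)
            ((M_cons_succ _ _ _).mpr hj)
          omega

/-- all runs of `v` are long: in terms of `w = v.reverse` -/
lemma long_iff (v : List Bool) : LongRuns false v ↔
    (∀ j, M v.reverse j → v.count false ≤ j) ∧
      ∀ i j, i < j → M v.reverse i → M v.reverse j → i + v.count false < j := by
  rw [longRuns_iff, List.count_reverse]
  unfold gaps
  rw [List.forall_mem_cons, first_iff, rest_iff]

/-! ### bits of `val` -/

lemma val_cons (b : Bool) (w : List Bool) : val (b :: w) = 2 * val w + b.toNat := by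
  cases b <;> rfl

lemma bit_zero (b : Bool) (w : List Bool) : (val (b :: w)).testBit 0 = b := by
  cases b with
  | true => show (2 * val w + 1).testBit 0 = true; simp
  | false => show (2 * val w).testBit 0 = false; simp

lemma bit_succ (b : Bool) (w : List Bool) (i : ℕ) :
    (val (b :: w)).testBit (i + 1) = (val w).testBit i := by
  cases b with
  | true =>
    show (2 * val w + 1).testBit (i + 1) = _
    rw [Nat.testBit_succ]
    congr 1
    omega
  | false =>
    show (2 * val w).testBit (i + 1) = _
    rw [Nat.testBit_succ]
    congr 1
    omega

lemma bit_val (w : List Bool) : ∀ i, (val w).testBit i = w.getD i false := by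
  induction w with
  | nil => intro i; simp [Pool.Agent.Y471.CK.val]
  | cons b w ih =>
    intro i
    rcases i with _ | i
    · rw [bit_zero]; rfl
    · rw [bit_succ, ih]; rfl

/-- every positive number is `num u` -/
lemma exists_num : ∀ t : ℕ, 1 ≤ t → ∃ u, num u = t := by
  intro t
  induction t using Nat.strong_induction_on with
  | _ t ih =>
    intro ht
    rcases eq_or_lt_of_le ht with h | h
    · exact ⟨[], h⟩
    · obtain ⟨u, hu⟩ := ih (t / 2) (by omega) (by omega)
      rcases Nat.even_or_odd' t with ⟨c, hc | hc⟩
      · exact ⟨false :: u, by show 2 * num u = t; omega⟩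
      · exact ⟨true :: u, by show 2 * num u + 1 = t; omega⟩

lemma num_lt (u : List Bool) : 2 ^ u.length ≤ num u ∧ num u < 2 ^ (u.length + 1) := by
  induction u with
  | nil => exact ⟨by decide, by decide⟩
  | cons b u ih =>
    rw [List.length_cons]
    have e1 : 2 ^ (u.length + 1) = 2 * 2 ^ u.length := by ring
    have e2 : 2 ^ (u.length + 1 + 1) = 2 * 2 ^ (u.length + 1) := by ring
    cases b with
    | true =>
      have : num (true :: u) = 2 * num u + 1 := rfl
      rw [this]; omega
    | false =>
      have : num (false :: u) = 2 * num u := rfl
      rw [this]; omega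

lemma log_num (u : List Bool) : Nat.log 2 (num u) = u.length :=
  (Nat.log_eq_iff (by right; exact ⟨by norm_num, by have := num_pos u; omega⟩)).mpr (num_lt u)

end Pool.Agent.Helper8.Med
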