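import Pool.Agent.Helper8.Med.B

/-! Criteria for equality in terms of the binary digits. -/

set_option autoImplicit false

namespace Pool.Agent.Helper8.Med

open Finset W93.CU Pool.Agent.Y21.CUB Pool.Agent.Y471.CK

/-- any two ones of the binary expansion of `t` are more than `c` places apart -/
def OnesApart (c t : ℕ) : Prop :=
  ∀ i j, i < j → t.testBit i = true → t.testBit j = true → i + c < j

/-- number of zeros in the binary expansion of `t` -/
def zeros (t : ℕ) : ℕ := ((Finset.range (Nat.log 2 t)).filter fun i => t.testBit i = false).card

/-- any two of the following places of the binary expansion of the odd number `t` are more than `c`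
apart: the last one, the first one, and the places of the zeros -/
def ZerosApart (c t : ℕ) : Prop :=
  ∀ i j, i < j → j ≤ Nat.log 2 t → (i = 0 ∨ t.testBit i = false) →
    (j = Nat.log 2 t ∨ t.testBit j = false) → i + c < j

lemma num_cons_succ (b : Bool) (w : List Bool) (i : ℕ) :
    (num (b :: w)).testBit (i + 1) = (num w).testBit i := bit_succ b (w ++ [true]) i

lemma num_cons_zero (b : Bool) (w : List Bool) : (num (b :: w)).testBit 0 = b :=
  bit_zero b (w ++ [true])

lemma num_nil_succ (i : ℕ) : (num []).testBit (i + 1) = false := by
  show (1:ℕ).testBit (i + 1) = false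
  rw [Nat.testBit_succ]; simp

lemma M_not_iff (w : List Bool) : ∀ i, M (w.map not) i ↔ (num w).testBit i = true := by
  induction w with
  | nil =>
    intro i
    rcases i with _ | i
    · exact ⟨fun _ => rfl, fun _ => M_nil_zero⟩
    · rw [num_nil_succ]
      exact ⟨fun h => absurd h (M_nil_succ i), fun h => absurd h (by decide)⟩
  | cons b w ih =>
    intro i
    rw [List.map_cons]
    rcases i with _ | i
    · rw [M_cons_zero, num_cons_zero]
      cases b <;> decide
    · rw [M_cons_succ, num_cons_succ]
      exact ih i

lemma M_iff (w : List Bool) :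
    ∀ i, M w i ↔ i ≤ w.length ∧ (i = w.length ∨ (num w).testBit i = false) := by
  induction w with
  | nil =>
    intro i
    rcases i with _ | i
    · exact ⟨fun _ => ⟨le_rfl, Or.inl rfl⟩, fun _ => M_nil_zero⟩
    · refine ⟨fun h => absurd h (M_nil_succ i), fun h => ?_⟩
      have := h.1
      simp at this
  | cons b w ih =>
    intro i
    rcases i with _ | i
    · rw [M_cons_zero, num_cons_zero, List.length_cons]
      constructor
      · intro h; exact ⟨by omega, Or.inr h⟩
      · rintro ⟨_, h | h⟩
        · omega
        · exact h
    · rw [M_cons_succ, num_cons_succ, ih i, List.length_cons]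
      constructor
      · rintro ⟨h1, h2⟩
        refine ⟨by omega, ?_⟩
        rcases h2 with h2 | h2
        · left; omega
        · right; exact h2
      · rintro ⟨h1, h2⟩
        refine ⟨by omega, ?_⟩
        rcases h2 with h2 | h2
        · left; omega
        · right; exact h2

lemma s_num (w : List Bool) : s (num w) = w.count true + 1 := by
  unfold num
  rw [s_val, List.count_append]
  simp

lemma zeros_num (w : List Bool) : zeros (num w) = w.count false := by
  unfold zeros
  rw [log_num, Finset.card_filter]
  induction w with
  | nil => rfl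
  | cons b w ih =>
    rw [List.length_cons, Finset.sum_range_succ']
    simp only [num_cons_succ, num_cons_zero]
    rw [ih]
    cases b with
    | true => rw [List.count_cons_of_ne (by decide)]; simp
    | false => rw [List.count_cons_self]; simp

/-- a general form, with a separate threshold -/
lemma ones_iff (w : List Bool) (c : ℕ) :
    ((∀ j, M (w.map not) j → c ≤ j) ∧
      ∀ i j, i < j → M (w.map not) i → M (w.map not) j → i + c < j) ↔
    OnesApart c (num (true :: w)) := by
  unfold OnesApart
  constructor
  · rintro ⟨h1, h2⟩ i j hij hi hj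
    rcases j with _ | j
    · omega
    · rw [num_cons_succ, ← M_not_iff] at hj
      rcases i with _ | i
      · have := h1 j hj; omega
      · rw [num_cons_succ, ← M_not_iff] at hi
        have := h2 i j (by omega) hi hj
        omega
  · intro h
    refine ⟨fun j hj => ?_, fun i j hij hi hj => ?_⟩
    · have := h 0 (j + 1) (by omega) (num_cons_zero _ _)
        (by rw [num_cons_succ, ← M_not_iff]; exact hj)
      omega
    · have := h (i + 1) (j + 1) (by omega) (by rw [num_cons_succ, ← M_not_iff]; exact hi)
        (by rw [num_cons_succ, ← M_not_iff]; exact hj)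
      omega

lemma zeros_iff (w : List Bool) (c : ℕ) :
    ((∀ j, M w j → c ≤ j) ∧ ∀ i j, i < j → M w i → M w j → i + c < j) ↔
    ZerosApart c (num (true :: w)) := by
  unfold ZerosApart
  rw [log_num, List.length_cons]
  constructor
  · rintro ⟨h1, h2⟩ i j hij hjl hi hj
    rcases j with _ | j
    · omega
    · rw [num_cons_succ] at hj
      have hMj : M w j := (M_iff w j).mpr ⟨by omega, by
        rcases hj with hj | hj
        · left; omega
        · right; exact hj⟩
      rcases i with _ | i
      · have := h1 j hMj; omega
      · rw [num_cons_succ] at hi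
        have hMi : M w i := (M_iff w i).mpr ⟨by omega, by
          rcases hi with hi | hi
          · omega
          · right; exact hi⟩
        have := h2 i j (by omega) hMi hMj
        omega
  · intro h
    refine ⟨fun j hj => ?_, fun i j hij hi hj => ?_⟩
    · obtain ⟨a, b⟩ := (M_iff w j).mp hj
      have := h 0 (j + 1) (by omega) (by omega) (Or.inl rfl) (by
        rw [num_cons_succ]
        rcases b with b | b
        · left; omega
        · right; exact b)
      omega
    · obtain ⟨a, b⟩ := (M_iff w j).mp hj
      obtain ⟨a', b'⟩ := (M_iff w i).mp hi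
      have := h (i + 1) (j + 1) (by omega) (by omega) (by
        rw [num_cons_succ]
        rcases b' with b' | b'
        · omega
        · right; exact b') (by
        rw [num_cons_succ]
        rcases b with b | b
        · left; omega
        · right; exact b)
      omega

/-- the odd case -/
theorem odd_case (t : ℕ) (ht : 3 ≤ t) (hodd : t % 2 = 1) :
    ∃ a b : ℝ, HasSum (fun d : ℕ => P t d) a ∧ HasSum (fun d : ℕ => P t (-d)) b ∧
      1 / 2 ≤ a ∧ 1 / 2 ≤ b ∧
      (a = 1 / 2 ↔ ZerosApart (zeros t) t) ∧ (b = 1 / 2 ↔ OnesApart (s t - 2) t) ∧
      (¬ ZerosApart (zeros t) t → 1 / 2 + 1 / 2 * (1 / 4) ^ min (zeros t) (s t - 1) ≤ a) ∧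
      (¬ OnesApart (s t - 2) t → 1 / 2 + 1 / 2 * (1 / 4) ^ min (zeros t + 1) (s t - 2) ≤ b) := by
  obtain ⟨w, hw⟩ := exists_num (t / 2) (by omega)
  have et : t = num (true :: w) := by
    show t = 2 * num w + 1
    omega
  have hr : w = w.reverse.reverse := (List.reverse_reverse w).symm
  have hz : zeros t = w.reverse.count false := by
    rw [et, zeros_num, List.count_cons_of_ne (by decide), List.count_reverse]
  have hs : s t = w.reverse.count true + 2 := by
    rw [et, s_num, List.count_cons_self, List.count_reverse]
  obtain ⟨ha, hb⟩ := odd_pos w.reverse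
  rw [← hr, ← et] at ha hb
  have hh : (1/2 : ℝ) ≤ 1/2 := le_rfl
  have hl : (1/2 : ℝ) < 1 := by norm_num
  have LA : LongRuns false w.reverse ↔ ZerosApart (zeros t) t := by
    rw [long_iff, List.reverse_reverse, hz, et]
    exact zeros_iff w _
  have LB : LongRuns false (w.reverse.map not) ↔ OnesApart (s t - 2) t := by
    rw [long_iff, ← List.map_reverse, List.reverse_reverse, (count_not _).1]
    have : s t - 2 = w.reverse.count true := by omega
    rw [this, et]
    exact ones_iff w _
  have q : (1/2 : ℝ) * (1 - 1/2) = 1/4 := by norm_num
  have q2 : (1 - 1/2 : ℝ) = 1/2 := by norm_num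
  refine ⟨_, _, ha, hb, pos_ge _ hh hl _, pos_ge _ hh hl _, ?_, ?_, ?_, ?_⟩
  · rw [← LA]
    constructor
    · intro h
      by_contra hno
      have h1 := pos_poor (1/2) hh hl w.reverse hno
      rw [q, q2] at h1
      have : (0:ℝ) < 1 / 2 * (1 / 4) ^ min (w.reverse.count false) (w.reverse.count true + 1) := by
        positivity
      linarith
    · exact pos_eq_of_long _
  · rw [← LB]
    constructor
    · intro h
      by_contra hno
      have h1 := pos_poor (1/2) hh hl (w.reverse.map not) hno
      rw [q, q2] at h1
      have : (0:ℝ) < 1 / 2 * (1 / 4) ^ min ((w.reverse.map not).count false)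
          ((w.reverse.map not).count true + 1) := by
        positivity
      linarith
    · exact pos_eq_of_long _
  · intro hno
    rw [← LA] at hno
    have h1 := pos_poor (1/2) hh hl w.reverse hno
    rw [q, q2] at h1
    rw [hz, show s t - 1 = w.reverse.count true + 1 by omega]
    exact h1
  · intro hno
    rw [← LB] at hno
    have h1 := pos_poor (1/2) hh hl (w.reverse.map not) hno
    rw [q, q2, (count_not _).1, (count_not _).2] at h1
    rw [hz, show s t - 2 = w.reverse.count true by omega, min_comm]
    exact h1

/-- for all `t` -/
theorem all_case (t : ℕ) (ht : 1 ≤ t) :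
    ∃ a b : ℝ, HasSum (fun d : ℕ => P t d) a ∧ HasSum (fun d : ℕ => P t (-d)) b ∧
      1 / 2 ≤ a ∧ 1 / 2 ≤ b := by
  induction t using Nat.strong_induction_on with
  | _ t ih =>
    rcases eq_or_lt_of_le ht with h | h
    · refine ⟨1, 1, ?_, ?_, by norm_num, by norm_num⟩
      · have := hasSum_ite_eq (0:ℕ) (1:ℝ)
        refine this.congr_fun fun d => ?_
        rw [← h, P_one]
        congr 1
        apply propext
        omega
      · have := hasSum_ite_eq (0:ℕ) (1:ℝ)
        refine this.congr_fun fun d => ?_
        rw [← h, P_one]
        congr 1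
        apply propext
        omega
    · rcases Nat.even_or_odd' t with ⟨c, hc | hc⟩
      · obtain ⟨a, b, h1, h2, h3, h4⟩ := ih c (by omega) (by omega)
        have e : P t = P c := by
          funext d; rw [hc, P_even c (by omega)]
        rw [e]
        exact ⟨a, b, h1, h2, h3, h4⟩
      · obtain ⟨a, b, h1, h2, h3, h4, _⟩ := odd_case t (by omega) (by omega)
        exact ⟨a, b, h1, h2, h3, h4⟩

end Pool.Agent.Helper8.Med
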