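import Pool.Agent.Helper8.Med.C

/-! The density of the numbers `n` with `s (n + t) ≤ s n`. -/

set_option autoImplicit false

namespace Pool.Agent.Helper8.Med

open Finset Filter Topology W93.CU Pool.Agent.Y21.CUB Pool.Agent.Y471.CK

lemma tlp_half (w : List Bool) : ∀ k, (tlp (1/2) w).1 k = (tl one0 one0 w).1 k ∧
    (tlp (1/2) w).2 k = (tl one0 one0 w).2 k := by
  induction w with
  | nil => intro k; exact ⟨rfl, rfl⟩
  | cons b w ih =>
    intro k
    have mix : 1/2 * (tlp (1/2) w).1 (k-1) + (1 - 1/2) * (tlp (1/2) w).2 (k+1) =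
        (tl one0 one0 w).1 (k-1) / 2 + (tl one0 one0 w).2 (k+1) / 2 := by
      rw [(ih (k-1)).1, (ih (k+1)).2]; ring
    cases b with
    | true => exact ⟨mix, (ih k).2⟩
    | false => exact ⟨(ih k).1, mix⟩

lemma tl_append (α β : ℤ → ℝ) (w u : List Bool) :
    tl α β (w ++ u) = tl (tl α β u).1 (tl α β u).2 w := by
  induction w with
  | nil => rfl
  | cons b w ih =>
    cases b with
    | true => simp only [List.cons_append, tl, ih]
    | false => simp only [List.cons_append, tl, ih]

lemma tl_false_fst (m : ℕ) : (tl one0 one0 (List.replicate m false)).1 = one0 := by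
  induction m with
  | zero => rfl
  | succ m ih => rw [List.replicate_succ]; exact ih

lemma dd_one_close (m : ℕ) : ∀ k,
    |dd 1 m k - (tl one0 one0 (List.replicate m false)).2 k| ≤ (1/2 : ℝ) ^ m := by
  induction m with
  | zero =>
    intro k
    have e : (tl one0 one0 (List.replicate 0 false)).2 k = one0 k := rfl
    rw [e, pow_zero]
    unfold dd one0 ind
    simp only [pow_zero, range_one, sum_singleton]
    split_ifs <;> norm_num
  | succ m ih =>
    intro k
    have e : (tl one0 one0 (List.replicate (m+1) false)).2 k =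
        one0 (k-1) / 2 + (tl one0 one0 (List.replicate m false)).2 (k+1) / 2 := by
      rw [List.replicate_succ]
      show (tl one0 one0 (List.replicate m false)).1 (k-1) / 2 + _ = _
      rw [tl_false_fst]
    have e2 : dd 1 (m+1) k = one0 (k-1) / 2 + dd 1 m (k+1) / 2 := by
      have := dd_odd 0 m k
      rw [dd_zero] at this
      exact this
    rw [e, e2]
    have := ih (k+1)
    rw [abs_le] at this ⊢
    rw [pow_succ]
    constructor <;> linarith [this.1, this.2]

lemma tl_close (α β β' : ℤ → ℝ) (ε : ℝ) (hε : 0 ≤ ε) (h : ∀ k, |β k - β' k| ≤ ε)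
    (w : List Bool) : ∀ k, |(tl α β w).1 k - (tl α β' w).1 k| ≤ ε ∧
      |(tl α β w).2 k - (tl α β' w).2 k| ≤ ε := by
  induction w with
  | nil =>
    intro k
    refine ⟨?_, h k⟩
    show |α k - α k| ≤ ε
    rw [sub_self, abs_zero]; exact hε
  | cons b w ih =>
    intro k
    have mix : |((tl α β w).1 (k-1) / 2 + (tl α β w).2 (k+1) / 2) -
        ((tl α β' w).1 (k-1) / 2 + (tl α β' w).2 (k+1) / 2)| ≤ ε := by
      have h1 := (ih (k-1)).1
      have h2 := (ih (k+1)).2
      rw [abs_le] at h1 h2 ⊢
      constructor <;> linarith [h1.1, h1.2, h2.1, h2.2]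
    cases b with
    | true => exact ⟨mix, (ih k).2⟩
    | false => exact ⟨(ih k).1, mix⟩

/-- the proportions for odd numbers -/
lemma dd_close (w : List Bool) (m : ℕ) :
    |(1 - dd (val (true :: w)) (w.length + 1 + m) 1) -
      pos (1/2) ((w ++ List.replicate m false).reverse.map not)| ≤ (1/2 : ℝ) ^ m := by
  have h1 := (dd_word (true :: w) m).1 1
  have h2 := (tl_close one0 (dd 1 m) ((tl one0 one0 (List.replicate m false)).2) _
    (by positivity) (dd_one_close m) (true :: w) 1).1
  have h3 : (tl one0 (tl one0 one0 (List.replicate m false)).2 (true :: w)) =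
      tl one0 one0 (true :: (w ++ List.replicate m false)) := by
    rw [← List.cons_append, tl_append, tl_false_fst]
  rw [h3] at h2
  rw [← (tlp_half _ 1).1] at h2
  have h4 := tail_one (1/2) (by norm_num) (by norm_num) (w ++ List.replicate m false).reverse
  rw [List.reverse_reverse] at h4
  have h5 : (tlp (1/2) (true :: (w ++ List.replicate m false))).1 1 =
      1/2 * (tlp (1/2) (w ++ List.replicate m false)).1 (1-1) +
        (1 - 1/2) * (tlp (1/2) (w ++ List.replicate m false)).2 (1+1) := rfl
  rw [h5, h4] at h2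
  have hl : (true :: w).length + m = w.length + 1 + m := rfl
  rw [hl] at h1
  rw [h1]
  have q2 : (1 - 1/2 : ℝ) = 1/2 := by norm_num
  rw [q2] at h2
  rw [abs_le] at h2 ⊢
  constructor <;> linarith [h2.1, h2.2]

lemma M_append (w u : List Bool) (i : ℕ) :
    M (w ++ u) i ↔ (i < w.length ∧ w[i]? = some false) ∨ (w.length ≤ i ∧ M u (i - w.length)) := by
  unfold M
  rw [List.append_assoc]
  by_cases h : i < w.length
  · rw [List.getElem?_append_left h]
    constructor
    · intro h'; exact Or.inl ⟨h, h'⟩
    · rintro (⟨_, h'⟩ | ⟨h', _⟩)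
      · exact h'
      · omega
  · rw [List.getElem?_append_right (by omega)]
    constructor
    · intro h'; exact Or.inr ⟨by omega, h'⟩
    · rintro (⟨h', _⟩ | ⟨_, h'⟩)
      · omega
      · exact h'

lemma M_true (m : ℕ) : ∀ i, M (List.replicate m true) i ↔ i = m := by
  induction m with
  | zero =>
    intro i
    rcases i with _ | i
    · exact ⟨fun _ => rfl, fun _ => M_nil_zero⟩
    · exact ⟨fun h => absurd h (M_nil_succ i), fun h => by omega⟩
  | succ m ih =>
    intro i
    rw [List.replicate_succ]
    rcases i with _ | i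
    · rw [M_cons_zero]
      exact ⟨fun h => absurd h (by decide), fun h => by omega⟩
    · rw [M_cons_succ, ih i]
      omega

lemma bit_iff (w : List Bool) (i : ℕ) :
    (val w).testBit i = true ↔ i < w.length ∧ (w.map not)[i]? = some false := by
  rw [bit_val]
  by_cases h : i < w.length
  · have e : w[i]? = some w[i] := List.getElem?_eq_getElem h
    rw [List.getD_eq_getElem?_getD, List.getElem?_map, e]
    simp [h]
  · have e : w[i]? = none := List.getElem?_eq_none (by omega)
    rw [List.getD_eq_getElem?_getD, e]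
    simp [h]

/-- the criterion with many zeros added -/
lemma long_ext (w : List Bool) (m : ℕ) (hm : w.count true ≤ m) :
    LongRuns false ((w ++ List.replicate m false).reverse.map not) ↔
      OnesApart (w.count true) (val (true :: w)) := by
  rw [long_iff, ← List.map_reverse, List.reverse_reverse, (count_not _).1, List.count_reverse,
    List.count_append, List.count_replicate]
  simp only [Bool.false_eq_true, beq_iff_eq, if_false, add_zero]
  rw [List.map_append, List.map_replicate, Bool.not_false]
  have key : ∀ i, M (w.map not ++ List.replicate m true) i ↔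
      ((val w).testBit i = true ∨ i = w.length + m) := by
    intro i
    rw [M_append, M_true, List.length_map, bit_iff]
    constructor
    · rintro (h | ⟨h1, h2⟩)
      · exact Or.inl h
      · right; omega
    · rintro (h | h)
      · exact Or.inl h
      · right; exact ⟨by omega, by omega⟩
  have hlt : ∀ i, (val w).testBit i = true → i < w.length := fun i h => ((bit_iff w i).mp h).1
  unfold OnesApart
  constructor
  · rintro ⟨h1, h2⟩ i j hij hi hj
    rcases j with _ | j
    · omega
    · rw [bit_succ] at hj
      rcases i with _ | i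
      · have := h1 j ((key j).mpr (Or.inl hj)); omega
      · rw [bit_succ] at hi
        have := h2 i j (by omega) ((key i).mpr (Or.inl hi)) ((key j).mpr (Or.inl hj))
        omega
  · intro h
    refine ⟨fun j hj => ?_, fun i j hij hi hj => ?_⟩
    · rcases (key j).mp hj with hj | hj
      · have := h 0 (j + 1) (by omega) (bit_zero _ _) (by rw [bit_succ]; exact hj)
        omega
      · omega
    · rcases (key i).mp hi with hi | hi
      · have hil := hlt i hi
        rcases (key j).mp hj with hj | hj
        · have := h (i + 1) (j + 1) (by omega) (by rw [bit_succ]; exact hi)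
            (by rw [bit_succ]; exact hj)
          omega
        · omega
      · rcases (key j).mp hj with hj | hj
        · have := hlt j hj
          omega
        · omega

/-- indicator of the numbers `≤ 0` -/
noncomputable def dn : ℤ → ℝ := fun x => if x ≤ 0 then 1 else 0

lemma dn_nonneg (x : ℤ) : 0 ≤ dn x := by unfold dn; split_ifs <;> norm_num

lemma dn_le_one (x : ℤ) : dn x ≤ 1 := by unfold dn; split_ifs <;> norm_num

lemma S_dn (t m : ℕ) : S dn t (2 ^ m) / 2 ^ m = 1 - dd t m 1 := by
  unfold S dd
  have h : ∑ n ∈ range (2 ^ m), dn (df t n) = 2 ^ m - ∑ n ∈ range (2 ^ m), ind t 1 n := by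
    rw [eq_sub_iff_add_eq, ← sum_add_distrib]
    have : ∀ n ∈ range (2 ^ m), dn (df t n) + ind t 1 n = 1 := by
      intro n _
      unfold dn ind df
      by_cases h : (s (n + t) : ℤ) - s n ≤ 0
      · rw [if_pos h, if_neg (by omega)]; ring
      · rw [if_neg h, if_pos (by omega)]; ring
    rw [sum_congr rfl this, sum_const, card_range]
    simp
  rw [h, sub_div, div_self (by positivity)]

/-- the density for odd `t` -/
lemma dens_odd (t : ℕ) (hodd : t % 2 = 1) (e : ℝ)
    (he : Tendsto (fun m : ℕ => 1 - dd t m 1) atTop (𝓝 e)) :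
    1 / 2 ≤ e ∧ (OnesApart (s t - 1) t → e = 1 / 2) ∧
      (¬ OnesApart (s t - 1) t → 1 / 2 + 1 / 2 * (1 / 4) ^ (s t - 1) ≤ e) := by
  obtain ⟨w, hw⟩ := exists_word (t / 2)
  have et : t = val (true :: w) := by
    show t = 2 * val w + 1
    omega
  have hs : s t - 1 = w.count true := by
    rw [et, s_val, List.count_cons_self]; omega
  have hh : (1/2 : ℝ) ≤ 1/2 := le_rfl
  have hl : (1/2 : ℝ) < 1 := by norm_num
  have q : (1/2 : ℝ) * (1 - 1/2) = 1/4 := by norm_num
  have q2 : (1 - 1/2 : ℝ) = 1/2 := by norm_num
  set f : ℕ → ℝ := fun m => pos (1/2) ((w ++ List.replicate m false).reverse.map not) with hf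
  have l1 : Tendsto (fun m : ℕ => 1 - dd t (w.length + 1 + m) 1) atTop (𝓝 e) := by
    have : Tendsto (fun m : ℕ => w.length + 1 + m) atTop atTop := by
      simp only [add_comm (w.length + 1)]
      exact tendsto_add_atTop_nat _
    exact he.comp this
  have l2 : Tendsto (fun m : ℕ => (1 - dd t (w.length + 1 + m) 1) - f m) atTop (𝓝 0) := by
    have := tendsto_pow_atTop_nhds_zero_of_lt_one (r := (1/2:ℝ)) (by norm_num) (by norm_num)
    refine squeeze_zero_norm (fun m => ?_) this
    rw [Real.norm_eq_abs, et]
    exact dd_close w m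
  have l3 : Tendsto f atTop (𝓝 e) := by
    have := l1.sub l2
    rw [sub_zero] at this
    refine this.congr fun m => ?_
    ring
  refine ⟨ge_of_tendsto' l3 fun m => pos_ge _ hh hl _, ?_, ?_⟩
  · intro h
    rw [hs, et] at h
    have ev : ∀ᶠ m in atTop, f m = 1/2 := by
      filter_upwards [eventually_ge_atTop (w.count true)] with m hm
      exact pos_eq_of_long _ ((long_ext w m hm).mpr h)
    exact tendsto_nhds_unique (l3.congr' ev) tendsto_const_nhds
  · intro h
    rw [hs, et] at h
    rw [hs]
    refine ge_of_tendsto l3 ?_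
    filter_upwards [eventually_ge_atTop (w.count true)] with m hm
    have hno : ¬ LongRuns false ((w ++ List.replicate m false).reverse.map not) := by
      rw [long_ext w m hm]; exact h
    have h1 := pos_poor (1/2) hh hl _ hno
    rw [q, q2] at h1
    refine le_trans ?_ h1
    have hc : ((w ++ List.replicate m false).reverse.map not).count false = w.count true := by
      rw [(count_not _).1, List.count_reverse, List.count_append, List.count_replicate]
      simp
    have : (1/4 : ℝ) ^ (w.count true) ≤ (1/4 : ℝ) ^ (min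
        (((w ++ List.replicate m false).reverse.map not).count false)
        (((w ++ List.replicate m false).reverse.map not).count true + 1)) := by
      refine pow_le_pow_of_le_one (by norm_num) (by norm_num) ?_
      rw [hc]
      exact min_le_left _ _
    linarith

lemma ones_even (c u : ℕ) : OnesApart c (2 * u) ↔ OnesApart c u := by
  have h0 : (2 * u).testBit 0 = false := by simp
  have h1 : ∀ i, (2 * u).testBit (i + 1) = u.testBit i := by
    intro i
    rw [Nat.testBit_succ]; congr 1; omega
  unfold OnesApart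
  constructor
  · intro h i j hij hi hj
    have := h (i + 1) (j + 1) (by omega) (by rw [h1]; exact hi) (by rw [h1]; exact hj)
    omega
  · intro h i j hij hi hj
    rcases i with _ | i
    · rw [h0] at hi; exact absurd hi (by decide)
    · rcases j with _ | j
      · omega
      · rw [h1] at hi hj
        have := h i j (by omega) hi hj
        omega

lemma dens_all (t : ℕ) (ht : 1 ≤ t) (e : ℝ)
    (he : Tendsto (fun m : ℕ => 1 - dd t m 1) atTop (𝓝 e)) :
    1 / 2 ≤ e ∧ (OnesApart (s t - 1) t → e = 1 / 2) ∧
      (¬ OnesApart (s t - 1) t → 1 / 2 + 1 / 2 * (1 / 4) ^ (s t - 1) ≤ e) := by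
  induction t using Nat.strong_induction_on with
  | _ t ih =>
    rcases Nat.even_or_odd' t with ⟨c, hc | hc⟩
    · have h1 : Tendsto (fun m : ℕ => 1 - dd c m 1) atTop (𝓝 e) := by
        have := he.comp (tendsto_add_atTop_nat 1)
        refine this.congr fun m => ?_
        show 1 - dd t (m + 1) 1 = _
        rw [hc, dd_even]
      have := ih c (by omega) (by omega) h1
      rw [hc, s_even, ones_even]
      exact this
    · exact dens_odd t (by omega) e he

/-- **The other median of `μ_t`.** -/
theorem dens (t : ℕ) (ht : 1 ≤ t) : ∃ (ρ : ℤ → ℝ) (e : ℝ),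
    (∀ d, Tendsto (fun N : ℕ => S (pt d) t N / N) atTop (𝓝 (ρ d))) ∧
    HasSum (fun d : ℕ => ρ (-d)) e ∧
    Tendsto (fun N : ℕ => S dn t N / N) atTop (𝓝 e) ∧
    1 / 2 ≤ e ∧ (e = 1 / 2 ↔ OnesApart (s t - 1) t) ∧
    (¬ OnesApart (s t - 1) t → 1 / 2 + 1 / 2 * (1 / 4) ^ (s t - 1) ≤ e) := by
  obtain ⟨ρ, h1, h2, c, h3, h4, _⟩ := Pool.Agent.Y471.CK.main t
  refine ⟨ρ, 1 + ρ 0 - c, h1, ?_, ?_⟩
  · have := h2.nat_add_neg.sub h4
    refine this.congr_fun fun d => ?_
    ring
  have lim : Tendsto (fun N : ℕ => S dn t N / N) atTop (𝓝 (1 + ρ 0 - c)) := by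
    have l := (tendsto_const_nhds (x := (1:ℝ))).add (h1 0) |>.sub h3
    refine l.congr' ?_
    filter_upwards [eventually_gt_atTop 0] with N hN
    have hNp : (N:ℝ) ≠ 0 := by positivity
    rw [← div_self hNp, ← add_div, ← sub_div]
    congr 1
    unfold S
    rw [sub_eq_iff_eq_add, ← sum_add_distrib]
    have e1 : (N:ℝ) = ∑ n ∈ range N, (1:ℝ) := by simp
    rw [e1, ← sum_add_distrib]
    refine sum_congr rfl fun n _ => ?_
    unfold pt dn up
    rcases lt_trichotomy (df t n) 0 with h | h | h
    · rw [if_neg (by omega), if_pos (by omega), if_neg (by omega)]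
    · rw [if_pos h, if_pos (by omega), if_pos (by omega)]
    · rw [if_neg (by omega), if_neg (by omega), if_pos (by omega)]; ring
  refine ⟨lim, ?_⟩
  have l2 : Tendsto (fun m : ℕ => 1 - dd t m 1) atTop (𝓝 (1 + ρ 0 - c)) := by
    have hsub : Tendsto (fun m : ℕ => S dn t (2^m) / ((2^m : ℕ):ℝ)) atTop (𝓝 (1 + ρ 0 - c)) :=
      lim.comp (tendsto_pow_atTop_atTop_of_one_lt (by norm_num : 1 < 2))
    refine hsub.congr fun m => ?_
    rw [← S_dn]
    push_cast
    rfl
  obtain ⟨a, b, d⟩ := dens_all t ht _ l2
  refine ⟨a, ⟨fun h => ?_, b⟩, d⟩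
  by_contra hno
  have := d hno
  have hp : (0:ℝ) < 1 / 2 * (1 / 4) ^ (s t - 1) := by positivity
  linarith

end Pool.Agent.Helper8.Med
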